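import Mathlib
import Pool.Agent.R350.GQ
import Pool.Agent.R350.HJ

/-!
# Arbitrary elliptic logarithms, generic logarithms and arbitrary logarithms

Let `Ω` be a lattice with algebraic invariants `g₂`, `g₃` and let `p_1, …, p_m` be ARBITRARY elliptic
logarithms of algebraic points (`℘ (p_i)` is algebraic, or `p_i ∈ Ω`), linearly independent over
`k = End(ℂ/Ω) ⊗ ℚ`.  Let `LogForms` be the space of all linear combinations, with algebraic
coefficients, of `1` and logarithms of algebraic numbers.  There is a space `F ⊆ LogForms`, which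
depends only on the `p_i` and whose dimension is at most `(m + D + 2)^3 + 1`, with the following
property.  Call numbers `y_1, …, y_n` good if they are linearly independent over `ℚ̄` modulo `F`, and
there is no relation

  `P (p_1, …, p_m, y_1, …, y_n, l_1, …, l_t) = 0`

where `P` is a nonzero polynomial with algebraic coefficients, of degree at most `D` in every `y_i`, of
total degree at most `1` in the `p_i` (of degree at most `D` in `p`, if `m = 1`), and of total degree
at most `1` in ARBITRARY elements `l_j` of `LogForms` (any number of them, chosen after `y`) which are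
linearly independent over `ℚ̄` modulo `F` and the `y_i`.

1. For all but `C (log log x) ^ C / log x * x ^ n` of the `n`-tuples `a` of positive integers up to `x`
   the numbers `log a_i` are good, with `C` depending only on `m`, `n` and `D`.
2. Let `λ_1, …, λ_N` be ARBITRARY elements of `LogForms`, linearly independent together with `1` over
   `ℚ̄`, for instance `ℚ`-linearly independent logarithms of algebraic numbers.  For an `n × N` matrix
   `b` of algebraic numbers put `y_i = ∑_k b_{i k} λ_k`.  Let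
   `c = ((D + 3) (D + 2) ^ n ((m + D + 2) ^ 3 + 1)) ^ 2`.  The set of the matrices for which the `y_i`
   are not good has dimension at most `(n - 1) N + c`: the values of any `s > (n - 1) N + c` linear
   forms at the points of this set satisfy a nontrivial polynomial relation, whose degree is bounded in
   terms of `m`, `n`, `D`, `N` and `s` only.  At most `C H ^ ((n - 1) N + c)` of these matrices have
   integral entries of absolute value at most `H`, where `C` depends only on `m`, `n`, `D` and `N`.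

In particular, for `m = 1`, one arbitrary elliptic logarithm `p` and the logarithms of almost all
tuples of integers satisfy no relation of degree at most `D`.

The proof (`Pool.Agent.R350`) uses the strong six exponentials theorem of D. Roy, large cubes in dense
sets of integers for (1), derivations of ultrapowers of `ℂ` for (2), and the theorems of Schneider and
of Masser on elliptic logarithms (in the starting library, `Pool.Agent.W245.EB.second_kind`).
-/

set_option autoImplicit false

namespace Pool.Agent.Results.MP_c9768e_nt.ArbitraryEllipticLogs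

open Module MvPolynomial
open scoped PeriodPair

/-- the linear combinations, with algebraic coefficients, of `1` and logarithms of algebraic numbers -/
noncomputable def LogForms : Submodule (algebraicClosure ℚ ℂ) ℂ :=
  Submodule.span (algebraicClosure ℚ ℂ) ({1} ∪ {z : ℂ | IsAlgebraic ℚ (Complex.exp z)})

/-- `β` belongs to the field `k = End(ℂ/Ω) ⊗ ℚ`: some multiple `m β`, `m ≥ 1`, maps the lattice `Ω`
to itself. -/
def IsMult (L : PeriodPair) (β : ℂ) : Prop :=
  ∃ m : ℕ, 0 < m ∧ ∀ ω ∈ L.lattice, (m : ℂ) * β * ω ∈ L.lattice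

/-- the `p_i` are elliptic logarithms of algebraic points (the elements of the lattice are allowed)
and linearly independent over `k` -/
def EllipticLogs (L : PeriodPair) {m : ℕ} (p : Fin m → ℂ) : Prop :=
  (∀ i, p i ∈ L.lattice ∨ IsAlgebraic ℚ (℘[L] (p i))) ∧
  ∀ β : Fin m → ℂ, (∀ i, IsMult L (β i)) → ∑ i, β i * p i = 0 → ∀ i, β i = 0

/-- `y` is independent modulo `F`, and the numbers `p_i`, `y_i` have no relation of degree at most `D`
in every `y_i` and of total degree at most `1` in the `p_i` (of degree at most `D` in `p`, if there is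
only one `p`) which is linear in elements of `LogForms` independent modulo `F` and `y` -/
def NoRelation {m n : ℕ} (D : ℕ) (p : Fin m → ℂ) (F : Submodule (algebraicClosure ℚ ℂ) ℂ)
    (y : Fin n → ℂ) : Prop :=
  (∀ c : Fin n → algebraicClosure ℚ ℂ, ∑ i, c i • y i ∈ F → c = 0) ∧
  ∀ (t : ℕ) (l : Fin t → ℂ), (∀ j, l j ∈ LogForms) →
    (∀ c : Fin t → algebraicClosure ℚ ℂ, ∑ j, c j • l j ∈ F ⊔
      Submodule.span (algebraicClosure ℚ ℂ) (Set.range y) → c = 0) →
    ∀ P : MvPolynomial (Fin m ⊕ (Fin n ⊕ Fin t)) (algebraicClosure ℚ ℂ),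
      (∀ β ∈ P.support, ∑ i, β (Sum.inl i) ≤ 1 ∨ (m = 1 ∧ ∑ i, β (Sum.inl i) ≤ D)) →
      (∀ i, P.degreeOf (Sum.inr (Sum.inl i)) ≤ D) →
      (∀ β ∈ P.support, ∑ j, β (Sum.inr (Sum.inr j)) ≤ 1) →
      aeval (Sum.elim p (Sum.elim y l)) P = 0 → P = 0

theorem noRelation_of {m n D : ℕ} {p : Fin m → ℂ} {F : Submodule (algebraicClosure ℚ ℂ) ℂ}
    {y : Fin n → ℂ} (h : Pool.Agent.R350.NoRelL D p F y) : NoRelation D p F y := h

open Classical in
/-- **Main result.** -/
theorem result (m n D N : ℕ) :
    ∃ C : ℕ, ∃ e : ℕ → ℕ, ∀ L : PeriodPair, IsAlgebraic ℚ L.g₂ →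
    IsAlgebraic ℚ L.g₃ → ∀ p : Fin m → ℂ, EllipticLogs L p →
    ∃ F : Submodule (algebraicClosure ℚ ℂ) ℂ, Module.Finite (algebraicClosure ℚ ℂ) F ∧
      finrank (algebraicClosure ℚ ℂ) F ≤ (m + D + 2) ^ 3 + 1 ∧ F ≤ LogForms ∧
      (∀ x : ℕ, 16 ≤ x →
        (((Fintype.piFinset fun _ : Fin n => Finset.Icc 1 x).filter fun a =>
          ¬ NoRelation D p F (fun i => (Real.log (a i) : ℂ))).card : ℝ) ≤
          C * Real.log (Real.log x) ^ C / Real.log x * (x : ℝ) ^ n) ∧
      ∀ l : Fin N → ℂ, (∀ k, l k ∈ LogForms) →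
      LinearIndependent (algebraicClosure ℚ ℂ) (fun o : Option (Fin N) => o.elim 1 l) →
      (∀ s : ℕ, (n - 1) * N + ((D + 3) * (D + 2) ^ n * ((m + D + 2) ^ 3 + 1)) ^ 2 < s →
        ∀ f : Fin s → Fin n × Fin N → algebraicClosure ℚ ℂ,
        ∃ G : MvPolynomial (Fin s) (algebraicClosure ℚ ℂ), G ≠ 0 ∧ G.totalDegree ≤ e s ∧
          ∀ b : Fin n × Fin N → algebraicClosure ℚ ℂ,
            ¬ NoRelation D p F (fun i => ∑ k, b (i, k) • l k) →
            eval (fun q => ∑ x, f q x * b x) G = 0) ∧
      ∀ H : ℕ, 1 ≤ H → Set.ncard {a : Fin n → Fin N → ℤ | (∀ i k, |a i k| ≤ H) ∧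
        ¬ NoRelation D p F (fun i => ∑ k, (a i k : ℂ) * l k)} ≤
        C * H ^ ((n - 1) * N + ((D + 3) * (D + 2) ^ n * ((m + D + 2) ^ 3 + 1)) ^ 2) := by
  obtain ⟨C₁, hC₁⟩ := Pool.Agent.R350.rate_lin D n (m + (D + 1)) 0
  have hc : ((D + 3) * (D + 2) ^ n * ((m + D + 2) ^ 3 + 1)) ^ 2 =
      Pool.Agent.R350.bigN n D (m + (D + 1)) 0 := by
    unfold Pool.Agent.R350.bigN
    ring
  rw [hc]
  obtain ⟨C, hC⟩ := Pool.Agent.R350.norel_count (algebraicClosure ℚ ℂ) ℂ 0 D n (m + (D + 1)) N
  have hdim : ∀ s : ℕ, ∃ e : ℕ, (n - 1) * N + Pool.Agent.R350.bigN n D (m + (D + 1)) 0 < s →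
      ∀ L : Submodule (algebraicClosure ℚ ℂ) ℂ, Pool.Agent.R350.HypV 0 L → (1 : ℂ) ∈ L →
      ∀ W : Submodule (algebraicClosure ℚ ℂ) ℂ, Module.Finite (algebraicClosure ℚ ℂ) W →
      finrank (algebraicClosure ℚ ℂ) W ≤ m + (D + 1) →
      ∀ z : Fin n → ℂ, (∀ i, z i ∈ L) → ∀ l : Fin N → ℂ, (∀ k, l k ∈ L) →
      LinearIndependent (algebraicClosure ℚ ℂ) (fun o : Option (Fin N) => o.elim 1 l) →
      ∀ φ : Fin s → Fin n × Fin N → algebraicClosure ℚ ℂ,
      ∃ Δ : MvPolynomial (Fin s) (algebraicClosure ℚ ℂ), Δ ≠ 0 ∧ Δ.totalDegree ≤ e ∧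
        ∀ b : Fin n × Fin N → algebraicClosure ℚ ℂ,
          eval (fun q => ∑ x, φ q x * b x) Δ ≠ 0 →
          Pool.Agent.R350.NoRel' L W (Pool.Agent.R350.exSp L W) D
            (fun i => z i + ∑ k, b (i, k) • l k) := by
    intro s
    by_cases hs : (n - 1) * N + Pool.Agent.R350.bigN n D (m + (D + 1)) 0 < s
    · obtain ⟨e, he⟩ := Pool.Agent.R350.norel_dim (algebraicClosure ℚ ℂ) ℂ 0 D n (m + (D + 1)) N s hs
      exact ⟨e, fun _ => he⟩
    · exact ⟨0, fun h => absurd h hs⟩
  choose e he using hdim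
  refine ⟨C₁ + C, e, fun L hg2 hg3 p hp => ?_⟩
  obtain ⟨W, hWf, hWr, hmain⟩ := Pool.Agent.R350.ell_setup hg2 hg3 D hp
  obtain ⟨h1, h2, h3, -⟩ := Pool.Agent.R350.exSp_bound Pool.Agent.R350.setup_complex.hyp
    Pool.Agent.R350.setup_complex.one W hWr
  refine ⟨Pool.Agent.R350.exSp Pool.Agent.H301R2.SSE.Lt W, h1, h2.trans (le_of_eq (by ring)), h3,
    fun x hx => ?_, fun l hl hli => ⟨fun s hs f => ?_, fun H hH => ?_⟩⟩
  · obtain ⟨-, -, -, -, h5⟩ := hC₁ x hx (algebraicClosure ℚ ℂ) ℂ _ _
      Pool.Agent.R350.setup_complex W hWf hWr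
    refine (h5 _ (fun a ha => (Finset.mem_filter.1 ha).1) ?_).trans ?_
    · intro a ha hgood
      exact (Finset.mem_filter.1 ha).2 (noRelation_of (hmain n _ hgood))
    · exact mul_le_mul_of_nonneg_right (Pool.Agent.TH681.QC.er_mono (Nat.le_add_right _ _) hx)
        (by positivity)
  · obtain ⟨G, g1, g2, g3⟩ := he s hs Pool.Agent.H301R2.SSE.Lt Pool.Agent.R350.setup_complex.hyp
      Pool.Agent.R350.setup_complex.one W hWf hWr 0 (fun _ => Submodule.zero_mem _) l hl hli f
    refine ⟨G, g1, g2, fun b hb => ?_⟩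
    by_contra h
    apply hb
    have h4 := noRelation_of (hmain n _ (g3 b h))
    have he : (fun i => (0 : Fin n → ℂ) i + ∑ k, b (i, k) • l k) =
        fun i => ∑ k, b (i, k) • l k := by
      funext i
      rw [Pi.zero_apply, zero_add]
    rwa [he] at h4
  · refine le_trans (le_trans (Set.ncard_le_ncard ?_ ?_) (hC Pool.Agent.H301R2.SSE.Lt
      Pool.Agent.R350.setup_complex.hyp Pool.Agent.R350.setup_complex.one W hWf hWr 0
      (fun _ => Submodule.zero_mem _) l hl hli H hH))
      (Nat.mul_le_mul_right _ (Nat.le_add_left _ _))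
    · rintro a ⟨ha1, ha2⟩
      refine ⟨ha1, fun h => ha2 ?_⟩
      have h4 := noRelation_of (hmain n _ h)
      have he : (fun i => (0 : Fin n → ℂ) i + ∑ k, (a i k : algebraicClosure ℚ ℂ) • l k) =
          fun i => ∑ k, (a i k : ℂ) * l k := by
        funext i
        rw [Pi.zero_apply, zero_add]
        rfl
      rwa [he] at h4
    · have h1 : ((Fintype.piFinset fun _ : Fin n => Fintype.piFinset fun _ : Fin N =>
          Finset.Icc (-(H : ℤ)) H : Finset (Fin n → Fin N → ℤ)) :
          Set (Fin n → Fin N → ℤ)).Finite := Finset.finite_toSet _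
      refine h1.subset fun A hA => ?_
      rw [Finset.mem_coe, Fintype.mem_piFinset]
      intro i
      rw [Fintype.mem_piFinset]
      intro j
      rw [Finset.mem_Icc, ← abs_le]
      exact hA.1 i j

end Pool.Agent.Results.MP_c9768e_nt.ArbitraryEllipticLogs
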