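import Pool.Agent.R351.GD.S.AllT

/-!
# Elliptic logarithms, their quasi-logarithms and logarithms for almost all tuples of integers of a number field:
relations of growing degree over number fields of growing degree

The theorem: among the `k`-tuples of points `α_i` with coordinates at most `T` of a lattice of algebraic numbers (for
instance the integers of a number field) all but at most `C T^(k (m + 1) - 1/(δ + 2)^C)` have the following property: all
elliptic logarithms `p` with `℘(p) = α_i + θ_j`, the numbers `ζ(p)` and all logarithms of the `α_i + θ_j` satisfy with the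
given numbers `w` no nontrivial relation of degree at most `δ` over any number field of degree at most `δ`. Here `C` does
not depend on `δ`, `T` and `w`; in particular for almost all tuples there is no such relation with `δ` up to a fixed power
of `log T / log log T`.

The proof follows the starting library (`MP_c9768e_nt.NumberFieldTuples`, project SL: helper333, helper71 and the
libraries they use), with polynomial bounds in `δ` at every step: the constants of the G-systems of the monomials of
degree at most `D`, the auxiliary degree `D`, the elimination of the constants by Hilbert functions, and the induction on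
the number of the points.
-/

set_option autoImplicit false

open scoped PeriodPair

namespace Pool.Agent.Results.MP_c9768e_nt.GrowingDegreeTuples

/-- The Weierstrass zeta function `ζ(z) = ∑ (1/(z-l) + 1/l + z/l²)`, the sum over the lattice (the summand of `l = 0` is
`1/z`, since `1/0 = 0` in Lean). -/
noncomputable def zeta (L : PeriodPair) (z : ℂ) : ℂ := ∑' l : L.lattice, (1 / (z - l) + 1 / l + z / l ^ 2)

/-- The number `ω_0 n_0 + … + ω_m n_m`. -/
noncomputable def num {m : ℕ} (ω : Fin (m + 1) → ℂ) (n : Fin (m + 1) → ℤ) : ℂ := ∑ j, (n j : ℂ) * ω j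

/-- There are `p` and `t` with `℘(p_(i,j)) = exp(t_(i,j)) = α_i + θ_j`, `α_i = num ω (n i)`, a number field `K` of degree at
most `δ` and a polynomial `P` over `K` of total degree at most `δ` which vanishes at the `w_1, …, w_Q` and the `3 k r`
numbers `p_(i,j)`, `ζ(p_(i,j))`, `t_(i,j)`, but `P(w, Y)` is not the zero polynomial in `Y`. -/
def Related (L : PeriodPair) (δ : ℕ) {Q : ℕ} (w : Fin Q → ℂ) {k m r : ℕ} (ω : Fin (m + 1) → ℂ) (θ : Fin r → ℕ)
    (n : Fin k → Fin (m + 1) → ℤ) : Prop :=
  ∃ p t : Fin k × Fin r → ℂ, (∀ q, p q ∉ L.lattice ∧ ℘[L] (p q) = num ω (n q.1) + θ q.2 ∧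
      Complex.exp (t q) = num ω (n q.1) + θ q.2) ∧
    ∃ K : IntermediateField ℚ ℂ, FiniteDimensional ℚ K ∧ Module.finrank ℚ K ≤ δ ∧
      ∃ P : MvPolynomial (Fin Q ⊕ (Fin k × Fin r) × Fin 3) K, P.totalDegree ≤ δ ∧
        MvPolynomial.aeval (Sum.elim w fun x => (![p x.1, zeta L (p x.1), t x.1] : Fin 3 → ℂ) x.2) P = 0 ∧
        MvPolynomial.aeval (Sum.elim (fun j => MvPolynomial.C (w j)) MvPolynomial.X) P ≠
          (0 : MvPolynomial ((Fin k × Fin r) × Fin 3) ℂ)

/-- Let `L` be a lattice with rational invariants `g₂`, `g₃`, let `ω_0 = 1, ω_1, …, ω_m` be algebraic numbers (for instance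
an integral basis of a number field) and `θ_1, …, θ_r` distinct natural numbers. For all `k`, `Q` there is `C` such that
for all `δ`, all `w_1, …, w_Q ∈ ℂ` and all `T ≥ 1`, at most `C T^(k (m + 1) - 1/(δ + 2)^C)` of the `k`-tuples of vectors with
coordinates in `[-T, T]` are related. -/
theorem result (L : PeriodPair) (a b : ℚ) (ha : L.g₂ = a) (hb : L.g₃ = b) {m r : ℕ} (ω : Fin (m + 1) → ℂ)
    (hω : ∀ j, IsAlgebraic ℚ (ω j)) (hω0 : ω 0 = 1) (θ : Fin r → ℕ) (hθ : Function.Injective θ) (k Q : ℕ) :
    ∃ C : ℕ, ∀ (δ : ℕ) (w : Fin Q → ℂ) (T : ℕ), 1 ≤ T →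
      {n : Fin k → Fin (m + 1) → ℤ | (∀ i l, |n i l| ≤ T) ∧ Related L δ w ω θ n}.Finite ∧
      ({n : Fin k → Fin (m + 1) → ℤ | (∀ i l, |n i l| ≤ T) ∧ Related L δ w ω θ n}.ncard : ℝ) ≤
        C * (T : ℝ) ^ (((k * (m + 1) : ℕ) : ℝ) - 1 / ((δ : ℝ) + 2) ^ C) := by
  obtain ⟨C, h⟩ := Pool.Agent.R351.GD.ellN_exp Pool.Agent.Y916.Sl.tW L a b ha hb ω hω hω0 θ hθ k Q
  exact ⟨C, h⟩

end Pool.Agent.Results.MP_c9768e_nt.GrowingDegreeTuples
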