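import Pool.Agent.R437.Met.Tup
import Pool.Agent.Results.MP_c9768e_nt.AlmostAllTuples

/-!
# Split semi-elliptic logarithms of the tuples of elements of a number field near a given point

Let `k` be a number field in `ℂ` and let `q_j` be an analytic function on an open connected set `S_j` with
`exp (q_j (t)) = t`, or `℘_j (q_j (t)) = t`, or `ζ_j (q_j (t)) = t` (`j = 1, …, n`; `℘_j`, `ζ_j` the functions
of any lattice `L_j`). For every `τ > 0` and all `ξ` in `S_1 × ⋯ × S_n` outside a set of Hausdorff dimension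
at most `2 (n - 1) / τ` the tuples `x` in `k ^ n` of large height `T` with `|ξ_j - x_j| ≤ C T ^ (-τ)` have
the following property: the `n + 1` numbers `π`, `q_j (x_j)` satisfy no polynomial relation of degree at
most `d` with coefficients in `k` of height at most `T ^ A`, not even approximately, up to `T ^ (-B)`. For
`n = 1` the exceptional set has dimension zero, for every `τ > 0`. The starting file `AlmostAllTuples` bounds
the number of the exceptional `x` of height at most `T` by `C T ^ ε N(T) ^ (n - 1)`, where `N(T)` is the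
number of elements of `k` of height at most `T`.
-/

set_option autoImplicit false

namespace Pool.Agent.Results.MP_c9768e_nt.NearEveryPoint

open Pool.Agent.R437.Met

/-- The Weierstrass zeta function `ζ(z) = ∑ (1/(z-l) + 1/l + z/l²)`, the sum over the lattice (the summand
of `l = 0` is `1/z`, since `1/0 = 0` in Lean). -/
noncomputable def zeta (L : PeriodPair) (z : ℂ) : ℂ :=
  ∑' l : L.lattice, (1 / (z - l) + 1 / l + z / l ^ 2)

/-- `q` is, on `S`, a logarithm of one of the three kinds: a branch of the inverse function of the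
exponential function, or of `℘`, or of `ζ` (for the lattice `L`). -/
def IsLog (L : PeriodPair) (S : Set ℂ) (q : ℂ → ℂ) : Prop :=
  (∀ t ∈ S, Complex.exp (q t) = t) ∨
  (∀ t ∈ S, q t ∉ L.lattice ∧ L.weierstrassP (q t) = t) ∨
  (∀ t ∈ S, q t ∉ L.lattice ∧ zeta L (q t) = t)

/-- The `n + 1` numbers `π`, `q_j (x_j)`, where `x_j` is read as a complex number by the embedding `σ`. -/
noncomputable def numbers {k : Type} [Field k] (σ : k →+* ℂ) {n : ℕ} (q : Fin n → ℂ → ℂ)
    (x : Fin n → k) : Option (Fin n) → ℂ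
  | none => (Real.pi : ℂ)
  | some j => q j (σ (x j))

/-- Some nonzero polynomial in `n + 1` variables, with coefficients in `k` of height at most `T ^ A` and of
degree at most `d` in each variable, takes at the `n + 1` numbers a value of absolute value at most
`T ^ (-B)`. -/
def Related {k : Type} [Field k] [NumberField k] (σ : k →+* ℂ) {n : ℕ} (q : Fin n → ℂ → ℂ) (d : ℕ)
    (A B T : ℝ) (x : Fin n → k) : Prop :=
  ∃ P : MvPolynomial (Option (Fin n)) k, P ≠ 0 ∧ (∀ i, P.degreeOf i ≤ d) ∧
    (∀ e, Height.mulHeight₁ (P.coeff e) ≤ T ^ A) ∧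
    ‖MvPolynomial.eval₂ σ (numbers σ q x) P‖ ≤ T ^ (-B)

/-- **Tuples of elements of a number field near a given point.** Let `k` be a number field with an
embedding `σ` in `ℂ`, `n ≥ 1`, let `L_1, …, L_n` be lattices, `S_j` open connected subsets of `ℂ`, `q_j`
analytic on `S_j` and a logarithm of one of the three kinds. For every `τ > 0` there is a set `E` of
Hausdorff dimension at most `2 (n - 1) / τ` such that for all `ξ` in `S_1 × ⋯ × S_n` outside `E`, all `d` and
`A` there is `B` such that for all `C` and all large `T`: for the `x` in `k ^ n` of heights at most `T` with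
`|ξ_j - σ(x_j)| ≤ C T ^ (-τ)` for all `j` no nonzero polynomial with coefficients in `k` of height at most
`T ^ A`, of degree at most `d` in each variable, takes at the numbers `π`, `q_j (x_j)` a value of absolute
value at most `T ^ (-B)`. -/
theorem result (k : Type) [Field k] [NumberField k] (σ : k →+* ℂ) (n : ℕ) (hn : 1 ≤ n)
    (L : Fin n → PeriodPair) (S : Fin n → Set ℂ) (hSo : ∀ j, IsOpen (S j))
    (hSc : ∀ j, IsConnected (S j)) (q : Fin n → ℂ → ℂ) (hq : ∀ j, AnalyticOnNhd ℂ (q j) (S j))
    (hlog : ∀ j, IsLog (L j) (S j) (q j)) (τ : ℝ) (hτ : 0 < τ) :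
    ∃ E : Set (Fin n → ℂ), dimH E ≤ ENNReal.ofReal (2 * ((n : ℝ) - 1) / τ) ∧
      ∀ ξ : Fin n → ℂ, (∀ j, ξ j ∈ S j) → ξ ∉ E → ∀ (d : ℕ) (A : ℝ), ∃ B : ℝ, ∀ C : ℝ, ∃ T₁ : ℝ,
        ∀ T : ℝ, T₁ ≤ T → ∀ x : Fin n → k,
          (∀ j, Height.mulHeight₁ (x j) ≤ T ∧ ‖ξ j - σ (x j)‖ ≤ C * T ^ (-τ)) →
            ¬ Related σ q d A B T x := by
  refine Tup.tuple_poly k σ n hn S hSo (numbers σ q) (fun K hK hKS d A ε hε => ?_) τ hτ
  obtain ⟨D, B, C, h⟩ := AlmostAllTuples.result k σ n d hn L S hSo hSc q hq hlog K hK hKS A ε hε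
  refine ⟨B, C, fun T hT => ?_⟩
  obtain ⟨-, h1, h2⟩ := h T hT
  have hset : {x : Fin n → k | (∀ j, σ (x j) ∈ K j ∧ Height.mulHeight₁ (x j) ≤ T) ∧
      Tup.PolyRel σ (numbers σ q x) d A B T} = AlmostAllTuples.Exceptional σ d q K A B T := by
    have heq : ∀ x : Fin n → k, numbers σ q x = AlmostAllTuples.numbers σ q x := by
      intro x
      funext i
      rcases i with _ | j
      · rfl
      · rfl
    ext x
    simp only [AlmostAllTuples.Exceptional, Tup.PolyRel, Set.mem_ofPred_eq, heq]
  rw [hset]
  exact ⟨h1, h2⟩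

end Pool.Agent.Results.MP_c9768e_nt.NearEveryPoint
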