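import Pool.Agent.R349.Short2
import Pool.Agent.R349.Semi

/-!
# Split semi-elliptic logarithms on algebraic curves: a bounded number of exceptions in small discs

Let `L` be a lattice, `U` a connected open set in `ℂ`. Let `t_1, …, t_s` be analytic functions on `U` such that the
`exp(t_l)` are algebraic functions and no nontrivial integral combination of the `t_l` is constant, and let
`p_1, …, p_a, q_1, …, q_b` be analytic functions on `U` with values outside the lattice such that the `℘(p_i)` and the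
`ζ(q_i)` are algebraic functions and no nontrivial combination of the `p_i, q_i` with coefficients in the ring of
endomorphisms of `ℂ / L` is constant. Algebraic means algebraic over `ℂ(z)`; in the most interesting case the algebraic
functions are defined over the field of algebraic numbers and their values at algebraic points `x` are algebraic: then
`t_l(x)`, `p_i(x)`, `q_i(x)` are numbers as in the question, and the conjecture says that these `s + a + b` numbers are
algebraically independent if the independence condition holds for them.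

We show that this is true in bounded degree and height, with **at most `C` exceptions `x` in each disc of radius
`T ^ (-δ)`**, `T` the height of `x` and `δ > 0` arbitrary, and even for the `s + 2 (a + b)` numbers `t_l(x)`, `p_i(x)`,
`ζ(p_i(x))`, `q_i(x)`, `℘(q_i(x))`: let `X_1, …, X_n` be finite sets of elements `x` of a number field `F` of degree at
most `m`, of height at most `T`, with images in compact sets `K_j`, each of the `X_j` of diameter at most `T ^ (-δ)`; for
instance all elements of `X_j` can be fractions with one fixed denominator `T`. For `n` curves and the tuples of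
`X_1 × … × X_n` all but `C ∑_j ∏_(i ≠ j) |X_i|` tuples are good, and there is a good one if all `|X_j| > C`. Good means
that these numbers, for all `n` curves together, satisfy no approximate relation of degree at most `d` and height at most
`T ^ A` whose coefficients are combinations of given complex numbers `ξ_1, …, ξ_g`, for instance of monomials in the
invariants, periods and quasi-periods, and together with `π` no relation over `F`.

The proof uses Ax's theorem for products of tori, elliptic curves and their extensions by vector groups, relative to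
countable fields of constants (`Pool.Agent.Y776.Cv.rank_Gp`), and a determinant method for small discs
(`Pool.Agent.R349.Gen.shortS`).
-/

set_option autoImplicit false

open NumberField
open scoped PeriodPair

namespace Pool.Agent.Results.MP_c9768e_nt.SmallDiscs

/-- The Weierstrass zeta function `ζ(z) = ∑ (1/(z-l) + 1/l + z/l²)`, the sum over the lattice (the summand of
`l = 0` is `1/z`, since `1/0 = 0` in Lean). -/
noncomputable def ζ (L : PeriodPair) (z : ℂ) : ℂ :=
  ∑' l : L.lattice, (1 / (z - l) + 1 / l + z / l ^ 2)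

/-- The function `f` on `U` is algebraic over `ℂ(z)`. -/
def Algebraic (U : Set ℂ) (f : ℂ → ℂ) : Prop :=
  ∃ P : MvPolynomial (Fin 2) ℂ, P ≠ 0 ∧ ∀ z ∈ U, MvPolynomial.eval ![z, f z] P = 0

/-- The analytic functions `t_l`, and `p_i` (with index `inl i`) and `q_i` (with index `inr i`) on `U` such that
`exp(t_l)`, `℘(p_i)` and `ζ(q_i)` are algebraic functions, with the conditions stated above. -/
structure Curve (U : Set ℂ) (L : PeriodPair) {s a b : ℕ} (t : Fin s → ℂ → ℂ) (p : Fin a ⊕ Fin b → ℂ → ℂ) :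
    Prop where
  isOpen : IsOpen U
  isPreconnected : IsPreconnected U
  nonempty : U.Nonempty
  pos : 0 < s + (a + b)
  analytic_t : ∀ l, AnalyticOnNhd ℂ (t l) U
  /-- no nontrivial combination with integral coefficients of the `t_l` is constant -/
  independent_t : ∀ (m : Fin s → ℤ) (c : ℂ), (∀ z ∈ U, ∑ l, (m l : ℂ) * t l z = c) → m = 0
  algebraic_exp : ∀ l, Algebraic U (fun z => Complex.exp (t l z))
  analytic_p : ∀ i, AnalyticOnNhd ℂ (p i) U
  notMem : ∀ i, ∀ z ∈ U, p i z ∉ L.lattice
  /-- no nontrivial combination with coefficients in the ring of endomorphisms of `ℂ / L` is constant -/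
  independent_p : ∀ (m : Fin a ⊕ Fin b → ℂ) (c : ℂ), (∀ i, ∀ w ∈ L.lattice, m i * w ∈ L.lattice) →
    (∀ z ∈ U, ∑ i, m i * p i z = c) → m = 0
  algebraic_wp : ∀ i : Fin a, Algebraic U (fun z => ℘[L] (p (Sum.inl i) z))
  algebraic_zeta : ∀ i : Fin b, Algebraic U (fun z => ζ L (p (Sum.inr i) z))

/-- The numbers `t_l(z)`; `p_i(z)`, `q_i(z)`; `ζ(p_i(z))`, `℘(q_i(z))`. -/
noncomputable def value (L : PeriodPair) {s a b : ℕ} (t : Fin s → ℂ → ℂ) (p : Fin a ⊕ Fin b → ℂ → ℂ) (z : ℂ) :
    Fin s ⊕ ((Fin a ⊕ Fin b) ⊕ (Fin a ⊕ Fin b)) → ℂ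
  | Sum.inl l => t l z
  | Sum.inr (Sum.inl i) => p i z
  | Sum.inr (Sum.inr (Sum.inl i)) => ζ L (p (Sum.inl i) z)
  | Sum.inr (Sum.inr (Sum.inr i)) => ℘[L] (p (Sum.inr i) z)

/-- The polynomials of degree at most `d` in each variable, all of whose coefficients are of the form `∑ ξ_i ι(c_i)`, where
the `c_i` are integers of the number field `F` all of whose conjugates have absolute value at most `H`. -/
def Admissible {σ : Type} {g : ℕ} (F : Type) [Field F] [NumberField F] (ι : F →+* ℂ) (ξ : Fin g → ℂ) (d : ℕ) (H : ℝ)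
    (P : MvPolynomial σ ℂ) : Prop :=
  (∀ y, P.degreeOf y ≤ d) ∧
    ∀ s, ∃ c : Fin g → 𝓞 F, (∀ i (φ : F →+* ℂ), ‖φ (c i)‖ ≤ H) ∧ P.coeff s = ∑ i, ξ i * ι (c i)

/-- The complex numbers `v` are good: every admissible polynomial takes at them a value which is at least `δ` times each of
its coefficients, and `π` and these numbers satisfy no relation `Q = 0` with a nonzero polynomial `Q` of degree at most `d`
in each variable whose coefficients are integers of `F` with conjugates of absolute value at most `H`. -/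
def Good {σ : Type} {g : ℕ} (F : Type) [Field F] [NumberField F] (ι : F →+* ℂ) (ξ : Fin g → ℂ) (d : ℕ)
    (H δ : ℝ) (v : σ → ℂ) : Prop :=
  (∀ P : MvPolynomial σ ℂ, Admissible F ι ξ d H P → ∀ s, δ * ‖P.coeff s‖ ≤ ‖MvPolynomial.aeval v P‖) ∧
  ∀ Q : MvPolynomial (Option σ) (𝓞 F), Q ≠ 0 → (∀ x, Q.degreeOf x ≤ d) →
    (∀ s (φ : F →+* ℂ), ‖φ ((Q.coeff s : 𝓞 F) : F)‖ ≤ H) →
    MvPolynomial.eval₂ (ι.comp (algebraMap (𝓞 F) F)) (fun o => o.elim (Real.pi : ℂ) v) Q ≠ 0

/-- The element `x` of `F` is a quotient of integers all of whose conjugates have absolute value at most `T`. -/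
def HeightLe (F : Type) [Field F] [NumberField F] (T : ℝ) (x : F) : Prop :=
  ∃ a b : 𝓞 F, b ≠ 0 ∧ (∀ φ : F →+* ℂ, ‖φ a‖ ≤ T ∧ ‖φ b‖ ≤ T) ∧ x = a / b

theorem fxm {U : Set ℂ} {L : PeriodPair} {s a b : ℕ} {t : Fin s → ℂ → ℂ} {p : Fin a ⊕ Fin b → ℂ → ℂ}
    (h : Curve U L t p) :
    Y776.Cv.FxM U (fun _ : Fin 1 => L) (fun _ => 0) (fun i : Fin (a + b) => p (finSumFinEquiv.symm i)) t where
  isOpen := h.isOpen
  conn := h.isPreconnected
  ni := fun c c' hcc => absurd (Subsingleton.elim c c') hcc
  ua := fun i => h.analytic_p _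
  un := fun i => h.notMem _
  ui := by
    intro _ m c hm _ hz
    have h1 := h.independent_p (fun i => m (finSumFinEquiv i)) c (fun i w hw => hm _ w hw) (fun z hz' => by
      rw [← hz z hz', ← finSumFinEquiv.sum_comp]
      refine Finset.sum_congr rfl fun i _ => ?_
      rw [Equiv.symm_apply_apply])
    funext i
    have h2 := congrFun h1 (finSumFinEquiv.symm i)
    simp only [Equiv.apply_symm_apply] at h2
    exact h2
  la := h.analytic_t
  li := h.independent_t

theorem value_an {U : Set ℂ} {L : PeriodPair} {s a b : ℕ} {t : Fin s → ℂ → ℂ} {p : Fin a ⊕ Fin b → ℂ → ℂ}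
    (h : Curve U L t p) (k : Fin s ⊕ ((Fin a ⊕ Fin b) ⊕ (Fin a ⊕ Fin b))) :
    AnalyticOnNhd ℂ (fun z => value L t p z k) U := by
  rcases k with l | i | i | i
  · exact h.analytic_t l
  · exact h.analytic_p i
  · have h1 := Y776.Cv.yf_an (fxm h) (Sum.inr (Sum.inr (Sum.inr (Sum.inl (finSumFinEquiv (Sum.inl i))))))
    have h2 : Y776.Cv.yf (fun _ : Fin 1 => L) (fun _ => 0) (fun i : Fin (a + b) => p (finSumFinEquiv.symm i)) t
        (Sum.inr (Sum.inr (Sum.inr (Sum.inl (finSumFinEquiv (Sum.inl i)))))) =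
        fun z => value L t p z (Sum.inr (Sum.inr (Sum.inl i))) := by
      funext z
      show H667R3.zeta L (p (finSumFinEquiv.symm (finSumFinEquiv (Sum.inl i))) z) = _
      rw [Equiv.symm_apply_apply]
      rfl
    rw [← h2]
    exact h1
  · have h1 := Y776.Cv.yf_an (fxm h) (Sum.inr (Sum.inr (Sum.inr (Sum.inr (finSumFinEquiv (Sum.inr i))))))
    have h2 : Y776.Cv.yf (fun _ : Fin 1 => L) (fun _ => 0) (fun i : Fin (a + b) => p (finSumFinEquiv.symm i)) t
        (Sum.inr (Sum.inr (Sum.inr (Sum.inr (finSumFinEquiv (Sum.inr i)))))) =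
        fun z => value L t p z (Sum.inr (Sum.inr (Sum.inr i))) := by
      funext z
      show ℘[L] (p (finSumFinEquiv.symm (finSumFinEquiv (Sum.inr i))) z) = _
      rw [Equiv.symm_apply_apply]
      rfl
    rw [← h2]
    exact h1

theorem value_ind {U : Set ℂ} {L : PeriodPair} {s a b : ℕ} {t : Fin s → ℂ → ℂ} {p : Fin a ⊕ Fin b → ℂ → ℂ}
    (h : Curve U L t p) : ∀ x ∈ U, Y124.LocInd (fun k z => value L t p z k) x := by
  refine Pool.Agent.R349.Semi.locInd_alg (fxm h) h.pos h.nonempty _ (value_an h) ?_ ?_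
  · simp only [Fintype.card_sum, Fintype.card_fin]
    omega
  · rintro (l | l | i | i | i)
    · exact Or.inl ⟨Sum.inl l, fun z _ => rfl⟩
    · exact Or.inr (h.algebraic_exp l)
    · exact Or.inl ⟨Sum.inr (Sum.inl (finSumFinEquiv.symm i)), fun z _ => rfl⟩
    · obtain ⟨i', rfl⟩ := finSumFinEquiv.surjective i
      rcases i' with i' | i'
      · refine Or.inl ⟨Sum.inr (Sum.inr (Sum.inl i')), fun z _ => ?_⟩
        show H667R3.zeta L (p (finSumFinEquiv.symm (finSumFinEquiv (Sum.inl i'))) z) = _
        rw [Equiv.symm_apply_apply]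
        rfl
      · refine Or.inr ?_
        obtain ⟨P, hP, hz⟩ := h.algebraic_zeta i'
        refine ⟨P, hP, fun z hz' => ?_⟩
        show MvPolynomial.eval ![z, H667R3.zeta L (p (finSumFinEquiv.symm (finSumFinEquiv (Sum.inr i'))) z)] P = 0
        rw [Equiv.symm_apply_apply]
        exact hz z hz'
    · obtain ⟨i', rfl⟩ := finSumFinEquiv.surjective i
      rcases i' with i' | i'
      · refine Or.inr ?_
        obtain ⟨P, hP, hz⟩ := h.algebraic_wp i'
        refine ⟨P, hP, fun z hz' => ?_⟩
        show MvPolynomial.eval ![z, ℘[L] (p (finSumFinEquiv.symm (finSumFinEquiv (Sum.inl i'))) z)] P = 0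
        rw [Equiv.symm_apply_apply]
        exact hz z hz'
      · refine Or.inl ⟨Sum.inr (Sum.inr (Sum.inr i')), fun z _ => ?_⟩
        show ℘[L] (p (finSumFinEquiv.symm (finSumFinEquiv (Sum.inr i'))) z) = _
        rw [Equiv.symm_apply_apply]
        rfl

/-- Let `L_1, …, L_n` be lattices with curves `(t_j, p_j)` on `U_j` as above (equal or different), `K_j` compact subsets
of `U_j`. For all `m`, `g`, `d`, `A` and `δ > 0` there are `B`, `C`, `T₀` with the property stated above. -/
theorem result {n : ℕ} {s a b : Fin n → ℕ} (U : Fin n → Set ℂ) (L : Fin n → PeriodPair)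
    (t : ∀ j, Fin (s j) → ℂ → ℂ) (p : ∀ j, Fin (a j) ⊕ Fin (b j) → ℂ → ℂ)
    (hU : ∀ j, Curve (U j) (L j) (t j) (p j))
    (K : Fin n → Set ℂ) (hK : ∀ j, IsCompact (K j)) (hKU : ∀ j, K j ⊆ U j) (m g d : ℕ) (A δ : ℝ) (hδ : 0 < δ) :
    ∃ (B : ℝ) (C : ℕ) (T₀ : ℝ), ∀ (F : Type) [Field F] [NumberField F], Module.finrank ℚ F ≤ m →
      ∀ (ι : F →+* ℂ) (ξ : Fin g → ℂ) (T : ℝ), T₀ ≤ T → ∀ X : Fin n → Finset F,
        (∀ j, ∀ x ∈ X j, ι x ∈ K j ∧ HeightLe F T x) → (∀ j, ∀ x ∈ X j, ∀ y ∈ X j, ‖ι x - ι y‖ ≤ T ^ (-δ)) →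
        (({x : Fin n → F | (∀ j, x j ∈ X j) ∧ ¬ Good F ι ξ d (T ^ A) (T ^ (-B))
          (fun k : Σ j, (Fin (s j) ⊕ ((Fin (a j) ⊕ Fin (b j)) ⊕ (Fin (a j) ⊕ Fin (b j)))) =>
            value (L k.1) (t k.1) (p k.1) (ι (x k.1)) k.2)}.ncard : ℝ) ≤
          C * ∑ j, ∏ i ∈ Finset.univ.erase j, ((X i).card : ℝ)) ∧
        ((∀ j, C < (X j).card) → ∃ x : Fin n → F, (∀ j, x j ∈ X j) ∧ Good F ι ξ d (T ^ A) (T ^ (-B))
          (fun k : Σ j, (Fin (s j) ⊕ ((Fin (a j) ⊕ Fin (b j)) ⊕ (Fin (a j) ⊕ Fin (b j)))) =>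
            value (L k.1) (t k.1) (p k.1) (ι (x k.1)) k.2)) :=
  Pool.Agent.R349.Gen.shortS m n g d
    (κ := fun j => Fin (s j) ⊕ ((Fin (a j) ⊕ Fin (b j)) ⊕ (Fin (a j) ⊕ Fin (b j)))) (fun j => (hU j).isOpen)
    (fun j => (hU j).isPreconnected) (fun j k z => value (L j) (t j) (p j) z k) (fun j k => value_an (hU j) k)
    (fun j x hx => value_ind (hU j) x hx) K hK hKU A δ hδ

end Pool.Agent.Results.MP_c9768e_nt.SmallDiscs
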